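import Pool.Agent.Helper20.P3F.St1
import Pool.Agent.Helper64.EQ.M_FWS

/-!
# Project P3F (MP_cb927e_an), module FWS3: few hits in one class, summation, `p ≤ 3`
(adapted from `Pool/Agent/Helper64/EQ/M_FWS.lean`)
-/

set_option autoImplicit false

open MeasureTheory Set Filter Topology
open scoped ENNReal RealInnerProductSpace

namespace Pool.Agent.Helper79.P3F

open Pool.Agent.Helper68.LM (Pl BB Bd Av HL ft fm DQ)
open Pool.Agent.Helper20.RG Pool.Agent.Helper20.EQ Pool.Agent.Helper20.P3F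
open Pool.Agent.Helper68.EP (elt GapP)
open Pool.Agent.Helper64.EQ (FWS_thr FWS_geo FWS_X)

/-- the first number -/
theorem FWS_num1 (p ε C₁ C₃ : ℝ) (t ρ : ℕ) (hp2 : 2 < p) (hp3 : p ≤ 3) (hε : ε ≤ 1 / 100)
    (hC₁ : 0 ≤ C₁) (hC₃ : 0 ≤ C₃) :
    (2 : ℝ) ^ (p * ((t : ℝ) - ρ)) * (C₁ * (4 : ℝ) ^ ρ / (2 : ℝ) ^ ((1 - ε) * t) *
      (C₃ * ((ρ + 1 : ℕ) : ℝ) * ((2 : ℝ) ^ ((1 - ε) * t) / 8) ^ (-(p ^ 2 / (p + 1))))) ≤
      512 * C₁ * C₃ * (1 + 1 / ((p - 2) * Real.log 2)) * (2 : ℝ) ^ (-((t : ℝ) / 16)) := by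
  have h2 : (0 : ℝ) < 2 := by norm_num
  have hl : 0 < Real.log 2 := Real.log_pos (by norm_num)
  have ht : (0 : ℝ) ≤ t := Nat.cast_nonneg _
  have hρ : (0 : ℝ) ≤ ρ := Nat.cast_nonneg _
  have hp1 : 0 < p + 1 := by linarith
  obtain ⟨q, hq⟩ : ∃ q, q = p ^ 2 / (p + 1) := ⟨_, rfl⟩
  have hq' : q * (p + 1) = p ^ 2 := by rw [hq]; field_simp
  have hq0 : 0 ≤ q := by rw [hq]; positivity
  have hq3 : q ≤ 3 := by
    rw [hq, div_le_iff₀ hp1]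
    nlinarith
  rw [← hq]
  -- the factor with rho
  have e1 : ((ρ + 1 : ℕ) : ℝ) ≤ (1 + 1 / ((p - 2) * Real.log 2)) * (2 : ℝ) ^ ((p - 2) * ρ) := by
    have h3 : 1 + (p - 2) * ρ * Real.log 2 ≤ (2 : ℝ) ^ ((p - 2) * ρ) := by
      rw [Real.rpow_def_of_pos h2]
      have := Real.add_one_le_exp (Real.log 2 * ((p - 2) * ρ))
      linarith
    have h4 : 0 < 1 + 1 / ((p - 2) * Real.log 2) := by
      have : 0 < p - 2 := by linarith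
      positivity
    refine le_trans ?_ (mul_le_mul_of_nonneg_left h3 h4.le)
    have h5 : 0 < (p - 2) * Real.log 2 := mul_pos (by linarith) hl
    have h6 : 1 / ((p - 2) * Real.log 2) * ((p - 2) * Real.log 2) = 1 :=
      one_div_mul_cancel h5.ne'
    have h7 : 0 < 1 / ((p - 2) * Real.log 2) := by positivity
    push_cast
    generalize 1 / ((p - 2) * Real.log 2) = a at *
    have h8 : (1 + a) * (1 + (p - 2) * ρ * Real.log 2) =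
        1 + a + ρ * ((p - 2) * Real.log 2) + ρ * (a * ((p - 2) * Real.log 2)) := by ring
    rw [h8, h6]
    have h9 : 0 ≤ (ρ : ℝ) * ((p - 2) * Real.log 2) := by positivity
    linarith
  have e2 : (8 : ℝ) ^ q ≤ 512 := by
    calc (8 : ℝ) ^ q ≤ (8 : ℝ) ^ (3 : ℝ) := Real.rpow_le_rpow_of_exponent_le (by norm_num) hq3
      _ = 512 := by
        rw [show (3 : ℝ) = ((3 : ℕ) : ℝ) by norm_num, Real.rpow_natCast]
        norm_num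
  have e3 : ((2 : ℝ) ^ ((1 - ε) * t) / 8) ^ (-q) =
      (2 : ℝ) ^ (-((1 - ε) * t * q)) * (8 : ℝ) ^ q := by
    rw [Real.div_rpow (by positivity) (by norm_num), ← Real.rpow_mul h2.le, Real.rpow_neg
      (by norm_num : (0 : ℝ) ≤ 8), div_inv_eq_mul]
    congr 2
    ring
  have e4 : (4 : ℝ) ^ ρ = (2 : ℝ) ^ (2 * (ρ : ℝ)) := by
    rw [Real.rpow_mul h2.le, Real.rpow_natCast]
    congr 1
    norm_num
  have e5 : p * t - (1 - ε) * t - (1 - ε) * t * q ≤ -(t / 16) := by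
    have h3 : p - (1 - ε) - (1 - ε) * q ≤ -(1 / 16) := by
      -- multiply by p + 1
      have h4 : (p - (1 - ε) - (1 - ε) * q) * (p + 1) = -1 + ε * (p + 1 + p ^ 2) := by
        have : (p - (1 - ε) - (1 - ε) * q) * (p + 1) =
          p * (p + 1) - (1 - ε) * (p + 1) - (1 - ε) * (q * (p + 1)) := by ring
        rw [this, hq']
        ring
      have h5 : -1 + ε * (p + 1 + p ^ 2) ≤ -(1 / 16) * (p + 1) := by
        have h6 : ε * (p + 1 + p ^ 2) ≤ 1 / 100 * (p + 1 + p ^ 2) :=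
          mul_le_mul_of_nonneg_right hε (by positivity)
        nlinarith
      rw [← h4] at h5
      exact le_of_mul_le_mul_right h5 hp1
    nlinarith
  have e6 : (2 : ℝ) ^ (p * ((t : ℝ) - ρ)) * (C₁ * (4 : ℝ) ^ ρ / (2 : ℝ) ^ ((1 - ε) * t) *
      (C₃ * ((ρ + 1 : ℕ) : ℝ) * ((2 : ℝ) ^ (-((1 - ε) * t * q)) * (8 : ℝ) ^ q))) =
      C₁ * C₃ * (8 : ℝ) ^ q * (((ρ + 1 : ℕ) : ℝ) * (2 : ℝ) ^ (-((p - 2) * ρ))) *
        (2 : ℝ) ^ (p * t - (1 - ε) * t - (1 - ε) * t * q) := by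
    have h3 : (2 : ℝ) ^ (p * ((t : ℝ) - ρ)) * (2 : ℝ) ^ (2 * (ρ : ℝ)) *
        (2 : ℝ) ^ (-((1 - ε) * t)) * (2 : ℝ) ^ (-((1 - ε) * t * q)) =
        (2 : ℝ) ^ (-((p - 2) * ρ)) * (2 : ℝ) ^ (p * t - (1 - ε) * t - (1 - ε) * t * q) := by
      rw [← Real.rpow_add h2, ← Real.rpow_add h2, ← Real.rpow_add h2, ← Real.rpow_add h2]
      congr 1
      ring
    rw [e4, div_eq_mul_inv, ← Real.rpow_neg h2.le]
    calc _ = C₁ * C₃ * (8 : ℝ) ^ q * ((ρ + 1 : ℕ) : ℝ) * ((2 : ℝ) ^ (p * ((t : ℝ) - ρ)) *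
          (2 : ℝ) ^ (2 * (ρ : ℝ)) * (2 : ℝ) ^ (-((1 - ε) * t)) *
            (2 : ℝ) ^ (-((1 - ε) * t * q))) := by ring
      _ = _ := by rw [h3]; ring
  rw [e3, e6]
  have e7 : ((ρ + 1 : ℕ) : ℝ) * (2 : ℝ) ^ (-((p - 2) * ρ)) ≤ 1 + 1 / ((p - 2) * Real.log 2) := by
    rw [Real.rpow_neg h2.le, ← div_eq_mul_inv, div_le_iff₀ (by positivity)]
    exact e1
  have e8 : (2 : ℝ) ^ (p * t - (1 - ε) * t - (1 - ε) * t * q) ≤ (2 : ℝ) ^ (-((t : ℝ) / 16)) :=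
    Real.rpow_le_rpow_of_exponent_le (by norm_num) e5
  have e9 : 0 ≤ 1 + 1 / ((p - 2) * Real.log 2) := by
    have : 0 < p - 2 := by linarith
    positivity
  calc C₁ * C₃ * (8 : ℝ) ^ q * (((ρ + 1 : ℕ) : ℝ) * (2 : ℝ) ^ (-((p - 2) * ρ))) *
        (2 : ℝ) ^ (p * t - (1 - ε) * t - (1 - ε) * t * q)
      ≤ C₁ * C₃ * 512 * (1 + 1 / ((p - 2) * Real.log 2)) * (2 : ℝ) ^ (-((t : ℝ) / 16)) := by
        gcongr
    _ = _ := by ring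

/-- the second number -/
theorem FWS_num2 (p C₁ C₄ D : ℝ) (t ρ : ℕ) (hp2 : 2 < p) (hp3 : p ≤ 3) (hC₁ : 0 ≤ C₁)
    (hC₄ : 0 ≤ C₄) (hD : 32 * (t : ℝ) ≤ D) :
    (2 : ℝ) ^ (p * ((t : ℝ) - ρ)) * (C₁ * (2 : ℝ) ^ (-(D / 8)) * C₄) ≤
      C₁ * C₄ * (2 : ℝ) ^ (-((t : ℝ) / 16)) := by
  have h2 : (0 : ℝ) < 2 := by norm_num
  have ht : (0 : ℝ) ≤ t := Nat.cast_nonneg _
  have hρ : (0 : ℝ) ≤ ρ := Nat.cast_nonneg _
  have h3 : (2 : ℝ) ^ (p * ((t : ℝ) - ρ)) * (2 : ℝ) ^ (-(D / 8)) ≤ (2 : ℝ) ^ (-((t : ℝ) / 16)) := by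
    rw [← Real.rpow_add h2]
    refine Real.rpow_le_rpow_of_exponent_le (by norm_num) ?_
    nlinarith [mul_nonneg (by linarith : (0 : ℝ) ≤ p) hρ]
  calc (2 : ℝ) ^ (p * ((t : ℝ) - ρ)) * (C₁ * (2 : ℝ) ^ (-(D / 8)) * C₄)
      = C₁ * C₄ * ((2 : ℝ) ^ (p * ((t : ℝ) - ρ)) * (2 : ℝ) ^ (-(D / 8))) := by ring
    _ ≤ C₁ * C₄ * (2 : ℝ) ^ (-((t : ℝ) / 16)) :=
        mul_le_mul_of_nonneg_left h3 (by positivity)

theorem hFWS3 (hFWC3 : StFWC3) (hGDL : StGDL) (hRIX : StRIX) (hBUN : StBUN) :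
    Pool.Agent.Helper20.P3F.StFWS3 := by
  intro φ τ A p c hG hA hgap hp2 hp3 ε δ Cρ hε hε2 hδ
  obtain ⟨C₁, C₂, hC₁, hC₂, hF⟩ := hFWC3 φ τ A p c hG hA hgap (by linarith) hp3
  obtain ⟨C₃, hC₃, hBN⟩ := hBUN φ τ A p c hG hA hgap (by linarith) 10000
  obtain ⟨C₄, hC₄, hgeo⟩ := FWS_geo
  obtain ⟨hL1, hL2, hL3⟩ := hGDL
  obtain ⟨t₀, ht₀, hthr⟩ := FWS_thr (32 + (C₂ : ℝ) * (2 + Cρ)) δ hδ
  have h2 : (0 : ℝ) < 2 := by norm_num
  have hp20 : 0 < p - 2 := by linarith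
  have hlog : 0 < Real.log 2 := Real.log_pos (by norm_num)
  have hC₁0 : 0 ≤ C₁ := by linarith
  obtain ⟨CA, hCA⟩ : ∃ CA, CA = 512 * C₁ * C₃ * (1 + 1 / ((p - 2) * Real.log 2)) := ⟨_, rfl⟩
  have hCA0 : 0 ≤ CA := by rw [hCA]; positivity
  have hCB0 : 0 ≤ C₁ * C₄ := by positivity
  refine ⟨2 * C₁ + CA + C₁ * C₄, t₀, by linarith, ?_⟩
  intro R₀ t ρ f hR₀ ht hρ hf hf0
  have ht5 : 5 ≤ t := ht₀.trans ht
  have ht5' : (5 : ℝ) ≤ t := by exact_mod_cast ht5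
  have hD := hthr t ht
  have hρ' : (ρ : ℝ) ≤ Cρ * t := by exact_mod_cast hρ
  have hC₂' : (1 : ℝ) ≤ C₂ := by exact_mod_cast hC₂
  have hCρ0 : (0 : ℝ) ≤ Cρ := Nat.cast_nonneg _
  obtain ⟨D, hDD⟩ : ∃ D, D = (2 : ℝ) ^ (δ * t) := ⟨_, rfl⟩
  obtain ⟨m, hm⟩ : ∃ m, m = (2 : ℝ) ^ ((1 - ε) * t) := ⟨_, rfl⟩
  rw [← hDD] at hD
  have hD32 : 32 * (t : ℝ) ≤ D := by
    have : 0 ≤ (C₂ : ℝ) * (2 + Cρ) * t := by positivity
    nlinarith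
  have hDC : (C₂ : ℝ) * (t + ρ + 1) ≤ D := by
    have h3 : (t : ℝ) + ρ + 1 ≤ (2 + Cρ) * t := by nlinarith
    have h4 : (C₂ : ℝ) * (t + ρ + 1) ≤ C₂ * ((2 + Cρ) * t) :=
      mul_le_mul_of_nonneg_left h3 (by linarith)
    nlinarith
  have hm16 : 16 ≤ m := by
    rw [hm]
    calc (16 : ℝ) = (2 : ℝ) ^ (4 : ℝ) := by
          rw [show (4 : ℝ) = ((4 : ℕ) : ℝ) by norm_num, Real.rpow_natCast]
          norm_num
      _ ≤ (2 : ℝ) ^ ((1 - ε) * t) :=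
          Real.rpow_le_rpow_of_exponent_le (by norm_num) (by nlinarith)
  have hm0 : 0 < m := by linarith
  -- conditions for the classes
  have hcl : ∀ u : ℕ, D < (u : ℝ) → 2 ≤ u ∧ (m / 8) ^ 3 ≤ (2 : ℝ) ^ u := by
    intro u hu
    constructor
    · have : (2 : ℝ) ≤ u := by linarith
      exact_mod_cast this
    · have h3 : m / 8 ≤ (2 : ℝ) ^ (t : ℝ) := by
        have h4 : m ≤ (2 : ℝ) ^ (t : ℝ) := by
          rw [hm]
          exact Real.rpow_le_rpow_of_exponent_le (by norm_num) (by nlinarith)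
        linarith
      calc (m / 8) ^ 3 ≤ ((2 : ℝ) ^ (t : ℝ)) ^ 3 := pow_le_pow_left₀ (by positivity) h3 3
        _ = (2 : ℝ) ^ (3 * t) := by
            rw [Real.rpow_natCast, ← pow_mul]
            congr 1
            ring
        _ ≤ (2 : ℝ) ^ u := by
            refine pow_le_pow_right₀ (by norm_num) ?_
            have : (3 : ℝ) * t ≤ u := by linarith
            exact_mod_cast this
  obtain ⟨B, hBB⟩ : ∃ B, B = C₁ * (4 : ℝ) ^ ρ / m *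
    (C₃ * ((ρ + 1 : ℕ) : ℝ) * (m / 8) ^ (-(p ^ 2 / (p + 1)))) + C₁ * (2 : ℝ) ^ (-(D / 8)) * C₄ :=
    ⟨_, rfl⟩
  have hB0 : 0 ≤ B := by rw [hBB]; positivity
  have hX := hRIX p B (fun u g => if D < (u : ℝ) then
        ENNReal.ofReal (C₁ * (4 : ℝ) ^ ρ / m) * BU c φ τ (m / 8) (ρ + 1) u g +
        ENNReal.ofReal (C₁ * (2 : ℝ) ^ (-((u : ℝ) / 4)) * (2 : ℝ) ^ (p * u)) *
          ∫⁻ x, ‖g x‖ₑ ^ 2 else 0) (by linarith) hB0 (by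
      intro g hg hg01
      have h3 := hBN (m / 8) (ρ + 1) g (by linarith) (by omega) hg
      have h4 := FWS_X φ τ p c C₁ C₄ D (C₁ * (4 : ℝ) ^ ρ / m)
        (C₃ * ((ρ + 1 : ℕ) : ℝ) * (m / 8) ^ (-(p ^ 2 / (p + 1)))) (m / 8) (ρ + 1) g hC₁0
        (by positivity) hgeo (by positivity) hC₄ hcl h3
      rw [← hBB] at h4
      exact h4) f (t : ℤ) ρ hf hf0
  rw [← hDD, ← hm]
  refine le_trans ?_ (hX.trans ?_)
  · refine ENNReal.tsum_le_tsum fun l => ?_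
    gcongr with u
    by_cases hu : D < (u : ℝ)
    · simp only [if_pos hu]
      obtain ⟨h3, h4⟩ := hL1 f (l - (t : ℤ) + u + ρ) hf hf0
      have hu2 : C₂ * (t + ρ + 1) ≤ u := by
        have : (C₂ : ℝ) * (t + ρ + 1) ≤ u := hDC.trans hu.le
        exact_mod_cast this
      refine hF u t ρ m (lev f (l - (t : ℤ) + u + ρ)) {x | Gd R₀ l f x} hu2 hm16 h3 h4 ?_
      intro x hx
      have h5 := hL2 C₁ R₀ f l (l - (t : ℤ) + u + ρ) x hC₁ (by linarith) hf hf0 hx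
      rw [show l - (l - (t : ℤ) + u + ρ) = (t : ℤ) - u - ρ by ring] at h5
      exact h5
    · simp only [if_neg hu, le_refl]
  · refine mul_le_mul_left (ENNReal.ofReal_le_ofReal ?_) _
    have h3 := FWS_num1 p ε C₁ C₃ t ρ hp2 hp3 hε2 hC₁0 hC₃.le
    have h4 := FWS_num2 p C₁ C₄ D t ρ hp2 hp3 hC₁0 hC₄ hD32
    rw [← hm, ← hCA] at h3
    rw [hBB, mul_add]
    have h5 : 0 < (2 : ℝ) ^ (-((t : ℝ) / 16)) := by positivity
    have h6 : 0 ≤ 2 * C₁ * (2 : ℝ) ^ (-((t : ℝ) / 16)) := by positivity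
    push_cast at h3 h4 ⊢
    linarith

end Pool.Agent.Helper79.P3F
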